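import Pool.Agent.helper96.SV.SpecA

/-!
# Project sva (MP_b5a345_ag), module LQA
-/

set_option autoImplicit false
set_option linter.unusedSectionVars false

namespace Pool.Agent.SVA

open Polynomial Module

/-- Semicontinuity at `0` for a polynomial family with values in any vector space. -/
theorem LQA_gen (hT1 : SV.T1_stmt) {E Z : Type} [AddCommGroup E] [Module ℂ E] [Module.Finite ℂ E]
    [AddCommGroup Z] [Module ℂ Z] (N : ℕ) (B : ℕ → E →ₗ[ℂ] Z) (k : ℕ)
    (h : finrank ℂ (LinearMap.ker (B 0)) ≤ k) :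
    {ε : ℂ | ¬ finrank ℂ (LinearMap.ker (∑ i ∈ Finset.range (N + 1), ε ^ i • B i)) ≤ k}.Finite := by
  classical
  let R : Submodule ℂ Z := ⨆ i : Fin (N + 1), LinearMap.range (B i)
  have hRfin : Module.Finite ℂ R := inferInstance
  let b := finBasis ℂ R
  obtain ⟨g, hg⟩ := LinearMap.exists_extend (b.equivFun : R →ₗ[ℂ] (Fin (finrank ℂ R) → ℂ))
  have hgR : ∀ z ∈ R, g z = 0 → z = 0 := by
    intro z hz h0
    have h1 : g z = b.equivFun ⟨z, hz⟩ := by
      have := LinearMap.congr_fun hg ⟨z, hz⟩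
      simpa using this
    rw [h1] at h0
    have h2 : (⟨z, hz⟩ : R) = 0 := b.equivFun.map_eq_zero_iff.1 h0
    exact congrArg Subtype.val h2
  have hmem : ∀ (ε : ℂ) (x : E), (∑ i ∈ Finset.range (N + 1), ε ^ i • B i) x ∈ R := by
    intro ε x
    rw [LinearMap.sum_apply]
    refine Submodule.sum_mem _ fun i hi => ?_
    rw [LinearMap.smul_apply]
    refine Submodule.smul_mem _ _ ?_
    have hi' : i < N + 1 := Finset.mem_range.1 hi
    exact (le_iSup (fun i : Fin (N + 1) => LinearMap.range (B i)) ⟨i, hi'⟩) ⟨x, rfl⟩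
  have hker : ∀ ε : ℂ, LinearMap.ker (g ∘ₗ (∑ i ∈ Finset.range (N + 1), ε ^ i • B i)) =
      LinearMap.ker (∑ i ∈ Finset.range (N + 1), ε ^ i • B i) := by
    intro ε
    ext x
    rw [LinearMap.mem_ker, LinearMap.mem_ker, LinearMap.comp_apply]
    exact ⟨fun h => hgR _ (hmem ε x) h, fun h => by rw [h, map_zero]⟩
  have h0 : (∑ i ∈ Finset.range (N + 1), (0 : ℂ) ^ i • B i) = B 0 := by
    rw [Finset.sum_range_succ']
    simp
  have key := hT1 (fun ε => g ∘ₗ (∑ i ∈ Finset.range (N + 1), ε ^ i • B i)) (by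
    intro v j
    have e1 : (fun t : ℂ => (g ∘ₗ (∑ i ∈ Finset.range (N + 1), t ^ i • B i)) v j) =
        fun t => ∑ i ∈ Finset.range (N + 1), t ^ i * g (B i v) j := by
      funext t
      rw [LinearMap.comp_apply, LinearMap.sum_apply, map_sum, Finset.sum_apply]
      refine Finset.sum_congr rfl fun i _ => ?_
      rw [LinearMap.smul_apply, map_smul, Pi.smul_apply, smul_eq_mul]
    rw [e1]
    exact SV.PolyFun.sum _ fun i _ => (SV.PolyFun.pow SV.PolyFun.id i).mul (SV.PolyFun.const _))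
    k 0 (by
      change finrank ℂ (LinearMap.ker
        (g ∘ₗ (∑ i ∈ Finset.range (N + 1), (0 : ℂ) ^ i • B i))) ≤ k
      rw [hker, h0]
      exact h)
  have hfr : ∀ ε : ℂ,
      finrank ℂ (LinearMap.ker (g ∘ₗ (∑ i ∈ Finset.range (N + 1), ε ^ i • B i))) =
      finrank ℂ (LinearMap.ker (∑ i ∈ Finset.range (N + 1), ε ^ i • B i)) := by
    intro ε
    rw [hker]
  simpa only [hfr] using key

theorem LQA_ker {E Y : Type} [AddCommGroup E] [Module ℂ E] [AddCommGroup Y] [Module ℂ Y]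
    (S : Submodule ℂ Y) (N : ℕ) (M : ℕ → E →ₗ[ℂ] Y) (ε : ℂ) :
    LinearMap.ker (∑ i ∈ Finset.range (N + 1), ε ^ i • (S.mkQ ∘ₗ M i)) =
      S.comap (∑ i ∈ Finset.range (N + 1), ε ^ i • M i) := by
  ext x
  rw [LinearMap.mem_ker, Submodule.mem_comap, ← Submodule.Quotient.mk_eq_zero, ← Submodule.mkQ_apply]
  simp only [LinearMap.sum_apply, LinearMap.smul_apply, LinearMap.comp_apply, map_sum, map_smul]

theorem LQA (hT1 : SV.T1_stmt) : LQA_stmt := by
  intro E Y _ _ _ _ _ S N M k h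
  have h0 : LinearMap.ker (S.mkQ ∘ₗ M 0) = S.comap (M 0) := by
    rw [LinearMap.ker_comp, Submodule.ker_mkQ]
  have key := LQA_gen hT1 N (fun i => S.mkQ ∘ₗ M i) k (by rw [h0]; exact h)
  have hfr : ∀ ε : ℂ,
      finrank ℂ (LinearMap.ker (∑ i ∈ Finset.range (N + 1), ε ^ i • (S.mkQ ∘ₗ M i))) =
      finrank ℂ (S.comap (∑ i ∈ Finset.range (N + 1), ε ^ i • M i)) := by
    intro ε
    rw [LQA_ker]
  simpa only [hfr] using key

end Pool.Agent.SVA
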