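import Pool.Agent.helper95.SVA.LQA

/-!
# Project sva (MP_b5a345_ag), module LQB
-/

set_option autoImplicit false
set_option linter.unusedSectionVars false

namespace Pool.Agent.SVA

open Polynomial Module

theorem LQB (hT1 : SV.T1_stmt) : LQB_stmt := by
  intro E Y _ _ _ _ _ S N M k f Λ hN hf hΛS hΛ0 hΛ1 hk
  classical
  have hf0 : f ≠ 0 := by
    rintro rfl
    exact hΛ1 (by simp)
  obtain ⟨θ, hθ⟩ : ∃ θ : E →ₗ[ℂ] ℂ, θ f = 1 := by
    obtain ⟨φ, hφ⟩ : ∃ φ : Module.Dual ℂ E, φ f ≠ 0 := by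
      by_contra hcon
      push Not at hcon
      exact hf0 ((Module.forall_dual_apply_eq_zero_iff ℂ f).1 hcon)
    exact ⟨(φ f)⁻¹ • φ, inv_mul_cancel₀ hφ⟩
  let Pf : E →ₗ[ℂ] E := LinearMap.id - θ.smulRight f
  have hPf : ∀ x, Pf x = x - θ x • f := fun x => rfl
  let Cf : ℕ → E →ₗ[ℂ] (Y ⧸ S) := fun i =>
    S.mkQ ∘ₗ M i ∘ₗ Pf + (if i < N then θ.smulRight (S.mkQ (M (i + 1) f)) else 0)
  have hCf : ∀ i x, Cf i x = S.mkQ (M i (x - θ x • f)) +
      (if i < N then θ x • S.mkQ (M (i + 1) f) else 0) := by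
    intro i x
    change (S.mkQ ∘ₗ M i ∘ₗ Pf) x +
      (if i < N then θ.smulRight (S.mkQ (M (i + 1) f)) else 0 : E →ₗ[ℂ] (Y ⧸ S)) x = _
    rw [LinearMap.comp_apply, LinearMap.comp_apply, hPf]
    congr 1
    split_ifs
    · rfl
    · rfl
  have h0 : finrank ℂ (LinearMap.ker (Cf 0)) ≤ k := by
    have hle : LinearMap.ker (Cf 0) ≤ S.comap (M 0) ⊓ LinearMap.ker θ := by
      intro x hx
      rw [LinearMap.mem_ker, hCf, if_pos (by omega), ← map_smul, ← map_add, Submodule.mkQ_apply,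
        Submodule.Quotient.mk_eq_zero] at hx
      have h1 := hΛS _ hx
      rw [map_add, hΛ0, zero_add, map_smul, smul_eq_mul] at h1
      have h2 : θ x = 0 := (mul_eq_zero.1 h1).resolve_right hΛ1
      rw [h2] at hx
      refine ⟨?_, h2⟩
      change M 0 x ∈ S
      simpa using hx
    have hlt : LinearMap.ker (Cf 0) < S.comap (M 0) := by
      refine lt_of_le_of_ne (hle.trans inf_le_left) fun he => ?_
      have h3 : f ∈ LinearMap.ker (Cf 0) := by rw [he]; exact hf
      have h4 : θ f = 0 := (hle h3).2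
      rw [hθ] at h4
      exact one_ne_zero h4
    have := Submodule.finrank_lt_finrank_of_lt hlt
    omega
  have key := LQA_gen hT1 N Cf k h0
  refine (key.union (Set.finite_singleton (0 : ℂ))).subset ?_
  intro ε hε
  by_contra hcon
  rw [Set.mem_union, Set.mem_singleton_iff, not_or] at hcon
  obtain ⟨hc1, hc2⟩ := hcon
  rw [Set.mem_ofPred_eq, not_not] at hc1
  apply hε
  refine le_trans ?_ hc1
  rw [← LQA_ker S N M ε]
  let A : E →ₗ[ℂ] E := LinearMap.id + (ε - 1) • θ.smulRight f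
  have hA : ∀ x, A x = x + (ε - 1) • (θ x • f) := fun x => rfl
  have hθA : ∀ x, θ (A x) = ε * θ x := by
    intro x
    rw [hA, map_add, map_smul, map_smul, hθ, smul_eq_mul, smul_eq_mul]
    ring
  have hAinj : Function.Injective A := by
    rw [← LinearMap.ker_eq_bot, Submodule.eq_bot_iff]
    intro x hx
    rw [LinearMap.mem_ker] at hx
    have h1 := hθA x
    rw [hx, map_zero] at h1
    have h2 : θ x = 0 := (mul_eq_zero.1 h1.symm).resolve_left hc2
    rw [hA, h2] at hx
    simpa using hx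
  have hcomp : ∀ x, (∑ i ∈ Finset.range (N + 1), ε ^ i • Cf i) (A x) =
      (∑ i ∈ Finset.range (N + 1), ε ^ i • (S.mkQ ∘ₗ M i)) x := by
    intro x
    have e1 : A x - θ (A x) • f = x - θ x • f := by
      rw [hθA, hA, mul_smul, sub_smul, one_smul]
      abel
    have e2 : (∑ i ∈ Finset.range (N + 1), ε ^ i • Cf i) (A x) =
        ∑ i ∈ Finset.range (N + 1), ε ^ i • S.mkQ (M i (x - θ x • f)) +
        ∑ i ∈ Finset.range (N + 1), (if i < N then ε ^ (i + 1) • θ x • S.mkQ (M (i + 1) f) else 0) := by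
      rw [LinearMap.sum_apply, ← Finset.sum_add_distrib]
      refine Finset.sum_congr rfl fun i _ => ?_
      rw [LinearMap.smul_apply, hCf, e1, smul_add]
      congr 1
      split_ifs
      · rw [hθA, mul_smul, smul_smul, ← pow_succ]
      · rw [smul_zero]
    have e3 : ∑ i ∈ Finset.range (N + 1),
        (if i < N then ε ^ (i + 1) • θ x • S.mkQ (M (i + 1) f) else 0) =
        ∑ i ∈ Finset.range N, ε ^ (i + 1) • θ x • S.mkQ (M (i + 1) f) := by
      rw [Finset.sum_range_succ, if_neg (lt_irrefl N), add_zero]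
      refine Finset.sum_congr rfl fun i hi => ?_
      rw [if_pos (Finset.mem_range.1 hi)]
    have e4 : ∑ i ∈ Finset.range (N + 1), ε ^ i • S.mkQ (M i (x - θ x • f)) =
        (∑ i ∈ Finset.range (N + 1), ε ^ i • (S.mkQ ∘ₗ M i)) x -
        ∑ i ∈ Finset.range (N + 1), ε ^ i • θ x • S.mkQ (M i f) := by
      rw [LinearMap.sum_apply, ← Finset.sum_sub_distrib]
      refine Finset.sum_congr rfl fun i _ => ?_
      rw [LinearMap.smul_apply, LinearMap.comp_apply, map_sub, map_sub, map_smul, map_smul, smul_sub]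
    have e5 : ∑ i ∈ Finset.range (N + 1), ε ^ i • θ x • S.mkQ (M i f) =
        ∑ i ∈ Finset.range N, ε ^ (i + 1) • θ x • S.mkQ (M (i + 1) f) := by
      have hz : S.mkQ (M 0 f) = 0 := by
        rw [Submodule.mkQ_apply, Submodule.Quotient.mk_eq_zero]
        exact hf
      rw [Finset.sum_range_succ', hz, smul_zero, smul_zero, add_zero]
    rw [e2, e3, e4, e5, sub_add_cancel]
  have hmap : ∀ x : LinearMap.ker (∑ i ∈ Finset.range (N + 1), ε ^ i • (S.mkQ ∘ₗ M i)),
      A x.1 ∈ LinearMap.ker (∑ i ∈ Finset.range (N + 1), ε ^ i • Cf i) := by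
    intro x
    rw [LinearMap.mem_ker, hcomp]
    exact x.2
  refine LinearMap.finrank_le_finrank_of_injective
    (f := (A.domRestrict _).codRestrict _ hmap) ?_
  intro x y hxy
  have h1 : A x.1 = A y.1 := congrArg Subtype.val hxy
  exact Subtype.ext (hAinj h1)

end Pool.Agent.SVA
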